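import Pool.Agent.Helper73.HM.St

/-! # HM: module RC -/

namespace Pool.Agent.Helper38.HM

open Ordinal Cardinal ZFSet Order Pool.Agent.Helper73.HODC Pool.Agent.Helper73.HE
  Pool.Agent.Helper73.HM

theorem rc : StRC := by
  classical
  intro κ c I U g hκ hc hκc hU h1 h2 h3
  have hcl : IsSuccLimit c.ord := isSuccLimit_ord hc.aleph0_le
  have hc0 : ℵ₀ < c := hκ.trans_le hκc
  have hcount : CountableInterFilter (U : Filter I) := CardinalInterFilter.toCountableInterFilter _ hκ
  have hsucc : ∀ β < c.ord, succ β < c.ord := fun β hβ => hcl.succ_lt hβ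
  have hpos : ∀ᶠ x in (U : Filter I), 0 < g x := h1 0 (pos_of_cof (by rw [hc.cof_ord]; exact hc0))
  -- limit
  have hlim : ∀ᶠ x in (U : Filter I), IsSuccLimit (g x) := by
    by_contra hcon
    rw [← Ultrafilter.eventually_not] at hcon
    have h4 : ∀ᶠ x in (U : Filter I), ∃ a, g x = succ a := by
      filter_upwards [hcon, hpos] with x hx hx0
      rcases Ordinal.zero_or_succ_or_isSuccLimit (g x) with h | ⟨a, h⟩ | h
      · rw [h] at hx0; exact absurd hx0 (lt_irrefl _)
      · exact ⟨a, h.symm⟩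
      · exact absurd h hx
    obtain ⟨β, hβ, hfβ⟩ := h2 (fun x => if h : ∃ a, g x = succ a then h.choose else 0) (by
      filter_upwards [h4] with x hx
      rw [dif_pos hx]
      conv_rhs => rw [hx.choose_spec]
      exact lt_succ _)
    obtain ⟨x, hx, hxβ, hx1⟩ := (h4.and (hfβ.and (h1 _ (hsucc β hβ)))).exists
    rw [dif_pos hx] at hxβ
    rw [hx.choose_spec, succ_lt_succ_iff] at hx1
    exact absurd (hx1.trans_le hxβ) (lt_irrefl _)
  -- cofinality is not countable
  have hne : ∀ᶠ x in (U : Filter I), (g x).cof ≠ ℵ₀ := by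
    by_contra hcon
    have hcon' : ∀ᶠ x in (U : Filter I), ¬ (g x).cof ≠ ℵ₀ := Ultrafilter.eventually_not.2 hcon
    have hex : ∀ x, ∃ F : ℕ → Ordinal.{0}, (g x).cof = ℵ₀ →
        (∀ n, F n < g x) ∧ ∀ b < g x, ∃ n, b ≤ F n := by
      intro x
      by_cases hx : (g x).cof = ℵ₀
      · obtain ⟨_, f, hf⟩ := dn_cof_omega_iff_seq.1 hx
        exact ⟨f, fun _ => hf⟩
      · exact ⟨fun _ => 0, fun h => absurd h hx⟩
    choose F hF using hex
    have h5 : ∀ n : ℕ, ∃ β < c.ord, ∀ᶠ x in (U : Filter I), F x n ≤ β := by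
      intro n
      refine h2 (fun x => F x n) ?_
      filter_upwards [hcon'] with x hx
      exact (hF x (not_not.1 hx)).1 n
    choose β hβ hFβ using h5
    have hs : (⨆ n, β n) < c.ord := by
      refine Ordinal.iSup_lt_of_lt_cof ?_ hβ
      rw [hc.cof_ord]
      simpa using hc0
    have h6 : ∀ᶠ x in (U : Filter I), ∀ n, F x n ≤ β n := eventually_countable_forall.2 hFβ
    obtain ⟨x, hx, hx6, hx1⟩ := (hcon'.and (h6.and (h1 _ (hsucc _ hs)))).exists
    obtain ⟨n, hn⟩ := (hF x (not_not.1 hx)).2 _ hx1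
    have h7 : β n ≤ ⨆ n, β n := Ordinal.le_iSup β n
    exact absurd (lt_succ (⨆ n, β n)) (not_lt.2 (hn.trans ((hx6 n).trans h7)))
  refine ⟨?_, ?_⟩
  · filter_upwards [hlim, hne] with x hx hx'
    have h8 : ℵ₀ ≤ (g x).cof := by
      rw [aleph0_le_cof_iff, one_lt_cof_iff]
      exact hx
    exact lt_of_le_of_ne h8 (Ne.symm hx')
  · intro C hC
    have hunb : ∀ᶠ x in (U : Filter I), UnbIn C (g x) := by
      by_contra hcon
      rw [← Ultrafilter.eventually_not] at hcon
      have hex : ∀ x, ∃ a, ¬ UnbIn C (g x) → a < g x ∧ ∀ b ∈ C, a < b → ¬ b < g x := by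
        intro x
        by_cases hx : UnbIn C (g x)
        · exact ⟨0, fun h => absurd hx h⟩
        · simp only [UnbIn] at hx
          push Not at hx
          obtain ⟨a, ha, hb⟩ := hx
          exact ⟨a, fun _ => ⟨ha, fun b hbC hab => not_lt.2 (hb b hbC hab)⟩⟩
      choose f hf using hex
      obtain ⟨β, hβ, hfβ⟩ := h2 f (by
        filter_upwards [hcon] with x hx
        exact (hf x hx).1)
      obtain ⟨γ, hγC, hβγ, hγ⟩ := hC.1 β hβ
      obtain ⟨x, hx, hxβ, hxγ⟩ := (hcon.and (hfβ.and (h1 γ hγ))).exists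
      exact (hf x hx).2 γ hγC (hxβ.trans_lt hβγ) hxγ
    filter_upwards [hunb, h3, hpos] with x hx hx3 hx0
    exact hC.2 _ hx3.1 hx0.ne' hx

end Pool.Agent.Helper38.HM
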